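import Pool.Agent.Lib.MP_89b4f4_co.Graph

set_option autoImplicit false

namespace Pool.Agent.Lib.MP_89b4f4_co

section
variable {A B I : Type} {M : ℕ}

lemma dim_of_pos (fa : I → A) (fb : I → B) (hM : 1 ≤ M) (K : ℕ) (p q : I → ℕ)
    (loA hiA : A → ℕ) (loB hiB : B → ℕ) (hp : Function.Injective p) (hq : Function.Injective q)
    (hpK : ∀ e, p e < K) (hqM : ∀ e, q e < M)
    (h1 : Function.Injective loA) (h2 : Function.Injective hiA)
    (h3 : Function.Injective loB) (h4 : Function.Injective hiB)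
    (hA : ∀ e x, fa e = x ↔ loA x ≤ p e ∧ p e ≤ hiA x)
    (hB : ∀ e y, fb e = y ↔ loB y ≤ q e ∧ q e ≤ hiB y) :
    ∃ (P : PartialOrder (Vx A B I M)) (L : Fin 3 → LinearOrder (Vx A B I M)),
      (∀ u v, (gr fa fb M).Adj u v ↔ P.lt u v ∨ P.lt v u) ∧
        ∀ u v, P.le u v ↔ ∀ i, (L i).le u v := by
  have hpq : ∀ e e', p e = p e' ↔ q e = q e' := fun e e' => by rw [hp.eq_iff, hq.eq_iff]
  have hr : ∀ k : ℕ, k % 6 < 6 := fun k => Nat.mod_lt _ (by norm_num)
  have hd : ∀ k : ℕ, 6 * (k / 6) + k % 6 = k := fun k => Nat.div_add_mod k 6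
  refine dim_of_keys _ (Lt fa fb) (fun _ _ => Iff.rfl) (vkey K p q loA hiA loB hiB) ?_ ?_
  · have hs : ∀ (k k' : ℕ) (hk : k ≤ 6 * M) (hk' : k' ≤ 6 * M) (e e' : I),
        (p e = p e' ∧ k / 6 = k' / 6 ∧ k % 6 = k' % 6) →
        (Vx.s k hk e : Vx A B I M) = Vx.s k' hk' e' := by
      intro k k' hk hk' e e' ⟨a1, a2, a3⟩
      have : k = k' := by omega
      subst this
      rw [hp a1]
    intro i u v h
    fin_cases i <;> cases u <;> cases v <;> simp only [vkey, Prod.mk.injEq] at h
    · exact congrArg Vx.a (h1 (by omega))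
    · omega
    · exact absurd h.symm (sa_ne1 _ _ _ _ _ _ (hr _))
    · omega
    · exact congrArg Vx.b (h3 (by omega))
    · exact absurd h.symm (sb_ne1 _ _ _ _ _ _ _ (hr _))
    · exact absurd h (sa_ne1 _ _ _ _ _ _ (hr _))
    · exact absurd h (sb_ne1 _ _ _ _ _ _ _ (hr _))
    · exact hs _ _ _ _ _ _ (ss_inj1 _ _ _ _ _ _ _ _ _ (hr _) (hr _) (hpK _) (hpK _) (hpq _ _) h)
    · exact congrArg Vx.a (h2 (by omega))
    · omega
    · exact absurd h.symm (sa_ne2 _ _ _ _ _ _ _ (hr _))
    · omega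
    · exact congrArg Vx.b (h4 (by omega))
    · exact absurd h.symm (sa_ne2 _ _ _ _ _ _ _ (hr _))
    · exact absurd h (sa_ne2 _ _ _ _ _ _ _ (hr _))
    · exact absurd h (sa_ne2 _ _ _ _ _ _ _ (hr _))
    · exact hs _ _ _ _ _ _ (ss_inj2 _ _ _ _ _ _ _ _ _ (hr _) (hr _) (hpK _) (hpK _) (hpq _ _) h)
    · exact congrArg Vx.a (h1 (by omega))
    · omega
    · exact absurd h.symm (sa_ne3 _ _ _ _ _ _ _ (hr _))
    · omega
    · exact congrArg Vx.b (h3 (by omega))
    · rename_i k hk e
      exact absurd h.symm (sb_ne3 _ _ _ _ _ _ _ (hr _) (by rw [hd]; exact hk))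
    · exact absurd h (sa_ne3 _ _ _ _ _ _ _ (hr _))
    · rename_i k hk e y
      exact absurd h (sb_ne3 _ _ _ _ _ _ _ (hr _) (by rw [hd]; exact hk))
    · exact hs _ _ _ _ _ _ (ss_inj3 _ _ _ _ _ _ _ _ _ (hr _) (hr _) (hpK _) (hpK _) (hpq _ _) h)
  · intro u v
    rw [Fin.forall_fin_succ, Fin.forall_fin_two]
    change _ ↔ (LexLt (vkey K p q loA hiA loB hiB 0 u) (vkey K p q loA hiA loB hiB 0 v) ∧
      LexLt (vkey K p q loA hiA loB hiB 1 u) (vkey K p q loA hiA loB hiB 1 v) ∧
      LexLt (vkey K p q loA hiA loB hiB 2 u) (vkey K p q loA hiA loB hiB 2 v))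
    cases u with
    | a x =>
      cases v with
      | a x' => simp only [Lt, vkey, LexLt, false_iff]; omega
      | b y => simp only [Lt, vkey, LexLt, false_iff]; omega
      | s k hk e =>
        simp only [Lt, vkey, false_iff]
        exact fun h => as_lt _ _ _ _ _ _ (hr _) h.1
    | b y =>
      cases v with
      | a x' => simp only [Lt, vkey, LexLt, false_iff]; omega
      | b y => simp only [Lt, vkey, LexLt, false_iff]; omega
      | s k hk e =>
        simp only [Lt, vkey, false_iff]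
        exact fun h => bs_lt _ _ _ _ _ _ _ (hr _) (by rw [hd]; exact hk) h.2.2
    | s k hk e =>
      cases v with
      | a x' =>
        simp only [Lt, vkey]
        rw [sa_lt _ _ _ _ _ _ _ (hr _) (hpK _), hd, hA]
      | b y =>
        simp only [Lt, vkey]
        rw [sb_lt _ _ _ _ _ _ _ _ (hr _) (hpK _) (hqM _) (by rw [hd]; exact hk), hd, hB]
      | s k' hk' e' =>
        simp only [Lt, vkey]
        rw [ss_lt _ _ _ _ _ _ _ _ _ (hr _) (hr _) (hpK _) (hpK _) (hpq _ _), hd, hd, hp.eq_iff]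
        have : k % 6 % 2 = k % 2 := by omega
        rw [this]

/-- Positions that make the fibres of a map consecutive. -/
lemma exists_pos {A I : Type} [Fintype A] [Fintype I] (f : I → A) :
    ∃ (p : I → ℕ) (lo hi : A → ℕ), Function.Injective p ∧
      (∀ e, p e < (Fintype.card I + 1) * Fintype.card A) ∧
      Function.Injective lo ∧ Function.Injective hi ∧
      ∀ e x, f e = x ↔ lo x ≤ p e ∧ p e ≤ hi x := by
  set N := Fintype.card I + 1 with hN
  let iA : A → ℕ := fun x => Fintype.equivFin A x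
  let i : I → ℕ := fun e => Fintype.equivFin I e
  have hiA : Function.Injective iA := fun x y h => (Fintype.equivFin A).injective (Fin.ext h)
  have hi : Function.Injective i := fun x y h => (Fintype.equivFin I).injective (Fin.ext h)
  have hiN : ∀ e, i e < N := fun e => (Fintype.equivFin I e).2.trans (Nat.lt_succ_self _)
  have hA : ∀ x, iA x < Fintype.card A := fun x => (Fintype.equivFin A x).2
  have hN0 : 0 < N := Nat.succ_pos _
  have key : ∀ (u v s t : ℕ), s < N → N * v ≤ N * u + s → N * u + s ≤ N * v + t → t < N →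
      u = v := by
    intro u v s t hs h1 h2 ht
    rcases lt_trichotomy u v with h | h | h
    · have : N * (u + 1) ≤ N * v := Nat.mul_le_mul_left _ h
      rw [mul_add] at this; omega
    · exact h
    · have : N * (v + 1) ≤ N * u := Nat.mul_le_mul_left _ h
      rw [mul_add] at this; omega
  refine ⟨fun e => N * iA (f e) + i e, fun x => N * iA x, fun x => N * iA x + (N - 1),
    ?_, ?_, ?_, ?_, ?_⟩
  · intro e e' h
    simp only at h
    have h1 := hiN e
    have h2 := hiN e'
    have := key (iA (f e)) (iA (f e')) (i e) (i e') h1 (by omega) (by omega) h2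
    rw [this] at h
    exact hi (by omega)
  · intro e
    have : N * (iA (f e) + 1) ≤ N * Fintype.card A := Nat.mul_le_mul_left _ (hA _)
    have h1 := hiN e
    rw [mul_add] at this
    simp only; omega
  · intro x y h
    exact hiA (Nat.eq_of_mul_eq_mul_left hN0 h)
  · intro x y h
    simp only at h
    exact hiA (Nat.eq_of_mul_eq_mul_left hN0 (by omega))
  · intro e x
    simp only
    have h1 := hiN e
    constructor
    · rintro rfl; omega
    · rintro ⟨h2, h3⟩
      exact hiA (key _ _ _ _ h1 h2 h3 (by omega))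

/-- The graph is the comparability graph of a poset of dimension at most three. -/
theorem dim_gr [Fintype A] [Fintype B] [Fintype I] (fa : I → A) (fb : I → B) (hM : 1 ≤ M)
    (hM' : (Fintype.card I + 1) * Fintype.card B ≤ M) :
    ∃ (P : PartialOrder (Vx A B I M)) (L : Fin 3 → LinearOrder (Vx A B I M)),
      (∀ u v, (gr fa fb M).Adj u v ↔ P.lt u v ∨ P.lt v u) ∧
        ∀ u v, P.le u v ↔ ∀ i, (L i).le u v := by
  obtain ⟨p, loA, hiA, a1, a2, a3, a4, a5⟩ := exists_pos fa
  obtain ⟨q, loB, hiB, b1, b2, b3, b4, b5⟩ := exists_pos fb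
  exact dim_of_pos fa fb hM _ p q loA hiA loB hiB a1 b1 a2 (fun e => (b2 e).trans_le hM')
    a3 a4 b3 b4 a5 b5

end

end Pool.Agent.Lib.MP_89b4f4_co
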