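import Pool.Agent.Lib.MP_89b4f4_co.Rigid

set_option autoImplicit false

namespace Pool.Agent.Lib.MP_89b4f4_co

section
variable {G : Type} [Group G] {n : ℕ}

/-- The incidence relation whose automorphisms are the left multiplications. -/
def FR (idx : G ≃ Fin n) : G × Fin (n + 1) → G ⊕ G → Prop
  | y, .inr h => y.1 = h
  | y, .inl x => (idx (y.1⁻¹ * x) : ℕ) < y.2

/-- Flags of the incidence relation. -/
abbrev FI (idx : G ≃ Fin n) : Type := {p : (G × Fin (n + 1)) × (G ⊕ G) // FR idx p.1 p.2}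

/-- Left multiplication on points. -/
def actA (γ : G) : G ⊕ G ≃ G ⊕ G := Equiv.sumCongr (Equiv.mulLeft γ) (Equiv.mulLeft γ)

/-- Left multiplication on blocks. -/
def actB (n : ℕ) (γ : G) : G × Fin (n + 1) ≃ G × Fin (n + 1) :=
  Equiv.prodCongr (Equiv.mulLeft γ) (Equiv.refl _)

lemma FR_act (idx : G ≃ Fin n) (γ : G) (y : G × Fin (n + 1)) (x : G ⊕ G) :
    FR idx y x ↔ FR idx (actB n γ y) (actA γ x) := by
  rcases x with x | x
  · simp [FR, actA, actB, mul_assoc]
  · simp [FR, actA, actB]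

/-- Left multiplication on flags. -/
def actI (idx : G ≃ Fin n) (γ : G) : FI idx ≃ FI idx :=
  Equiv.subtypeEquiv (Equiv.prodCongr (actB n γ) (actA γ)) fun p => FR_act idx γ p.1 p.2

lemma FR_rigid (idx : G ≃ Fin n) (σ : G ⊕ G ≃ G ⊕ G) (τ : G × Fin (n + 1) ≃ G × Fin (n + 1))
    (h : ∀ y x, FR idx y x ↔ FR idx (τ y) (σ x)) : ∃ γ, σ = actA γ ∧ τ = actB n γ := by
  have hsub : ∀ y y' : G × Fin (n + 1),
      (∀ x, FR idx y x → FR idx y' x) ↔ (y.1 = y'.1 ∧ y.2 ≤ y'.2) := by
    rintro ⟨g, i⟩ ⟨g', i'⟩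
    constructor
    · intro H
      have e : g' = g := H (.inr g) rfl
      subst e
      refine ⟨rfl, ?_⟩
      by_contra hlt
      have hlt' : (i' : ℕ) < i := not_le.mp hlt
      have hi : (i' : ℕ) < n := by have := i.2; omega
      have := H (.inl (g' * idx.symm ⟨i', hi⟩)) (by simpa [FR] using hlt')
      simp [FR] at this
    · rintro ⟨e, hle⟩ x hx
      simp only at e hle
      subst e
      rcases x with x | x
      · exact lt_of_lt_of_le hx hle
      · exact hx
  have hτ : ∀ y y' : G × Fin (n + 1), (y.1 = y'.1 ∧ y.2 ≤ y'.2) →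
      ((τ y).1 = (τ y').1 ∧ (τ y).2 ≤ (τ y').2) := by
    intro y y' H
    rw [← hsub] at H ⊢
    intro x hx
    obtain ⟨x, rfl⟩ := σ.surjective x
    rw [← h] at hx ⊢
    exact H x hx
  let t : G → G := fun g => (τ (g, 0)).1
  have h1 : ∀ g i, (τ (g, i)).1 = t g := fun g i => (hτ (g, 0) (g, i) ⟨rfl, Fin.zero_le _⟩).1.symm
  have h2 : ∀ g i, (τ (g, i)).2 = i := by
    intro g i
    have hm : StrictMono fun j => (τ (g, j)).2 := by
      intro j j' hj
      refine lt_of_le_of_ne (hτ (g, j) (g, j') ⟨rfl, hj.le⟩).2 fun e => hj.ne ?_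
      have : τ (g, j) = τ (g, j') := Prod.ext (by rw [h1, h1]) e
      simpa using τ.injective this
    exact hm.apply_eq
  have h3 : ∀ g i, τ (g, i) = (t g, i) := fun g i => Prod.ext (h1 g i) (h2 g i)
  have h4 : ∀ g, σ (.inr g) = .inr (t g) := by
    intro g
    have := (h (g, 0) (.inr g)).mp rfl
    rw [h3] at this
    cases hσ : σ (.inr g) with
    | inl x => rw [hσ] at this; simp [FR] at this
    | inr x => rw [hσ] at this; exact congrArg Sum.inr (Eq.symm this)
  have h5 : ∀ g x, σ (.inl x) = .inl (t g * (g⁻¹ * x)) := by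
    intro g x
    have a1 := (h (g, (idx (g⁻¹ * x)).succ) (.inl x)).mp (by simp [FR])
    have a2 := (h (g, (idx (g⁻¹ * x)).castSucc) (.inl x)).not.mp (by simp [FR])
    rw [h3] at a1 a2
    cases hσ : σ (.inl x) with
    | inr z => rw [hσ] at a1 a2; exact absurd a1 a2
    | inl z =>
      rw [hσ] at a1 a2
      simp only [FR, Fin.val_succ, Fin.val_castSucc] at a1 a2
      have a3 : idx ((t g)⁻¹ * z) = idx (g⁻¹ * x) := Fin.ext (by omega)
      rw [← idx.injective a3]
      simp
  have h6 : ∀ g, t g = t 1 * g := by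
    intro g
    have := (h5 g g).symm.trans (h5 1 g)
    simpa using this
  refine ⟨t 1, Equiv.ext fun x => ?_, Equiv.ext fun y => ?_⟩
  · rcases x with x | x
    · rw [h5 1 x]; simp [actA]
    · rw [h4, h6]; simp [actA]
  · rcases y with ⟨g, i⟩
    rw [h3, h6]; simp [actB]

/-- The point of a flag. -/
def ffa (idx : G ≃ Fin n) (e : FI idx) : G ⊕ G := e.1.2

/-- The block of a flag. -/
def ffb (idx : G ≃ Fin n) (e : FI idx) : G × Fin (n + 1) := e.1.1

/-- The automorphism given by left multiplication. -/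
def actHom (idx : G ≃ Fin n) (M : ℕ) : G →* (gr (ffa idx) (ffb idx) M ≃g gr (ffa idx) (ffb idx) M) where
  toFun γ := mapIso M (actA γ) (actB n γ) (actI idx γ) (fun _ => rfl) (fun _ => rfl)
  map_one' := by
    refine RelIso.ext fun v => ?_
    change vmap M _ _ _ v = v
    cases v with
    | a x => rcases x with x | x <;> simp [vmap, actA]
    | b y => simp [vmap, actB]
    | s k hk e =>
      simp only [vmap, Vx.s.injEq, true_and]
      obtain ⟨⟨y, x⟩, he⟩ := e
      apply Subtype.ext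
      rcases x with x | x <;> simp [actI, actA, actB]
  map_mul' γ δ := by
    refine RelIso.ext fun v => ?_
    change vmap M _ _ _ v = vmap M _ _ _ (vmap M _ _ _ v)
    cases v with
    | a x => rcases x with x | x <;> simp [vmap, actA, mul_assoc]
    | b y => rcases y with ⟨g, i⟩; simp [vmap, actB, mul_assoc]
    | s k hk e =>
      simp only [vmap, Vx.s.injEq, true_and]
      obtain ⟨⟨⟨g, i⟩, x⟩, he⟩ := e
      apply Subtype.ext
      rcases x with x | x <;> simp [actI, actA, actB, mul_assoc]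

lemma actHom_bijective (idx : G ≃ Fin n) (M : ℕ) (hM : 1 ≤ M) :
    Function.Bijective (actHom idx M) := by
  have hb : Function.Surjective (ffb idx) := fun y => ⟨⟨(y, .inr y.1), rfl⟩, rfl⟩
  constructor
  · intro γ δ h
    have : (Vx.a (actA γ (.inr 1)) : Vx _ (G × Fin (n + 1)) (FI idx) M) = Vx.a (actA δ (.inr 1)) :=
      congrArg (fun φ => φ (Vx.a (.inr 1))) h
    simpa [actA] using this
  · intro φ
    obtain ⟨σ, τ, ρ, h1, h2, h3, h4, h5⟩ := rigid hM hb hb φ
    have hR : ∀ y x, FR idx y x ↔ FR idx (τ y) (σ x) := by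
      intro y x
      constructor
      · intro h
        have a1 := (ρ ⟨(y, x), h⟩).2
        have a2 := h4 ⟨(y, x), h⟩
        have a3 := h5 ⟨(y, x), h⟩
        simp only [ffa, ffb] at a2 a3
        rwa [a2, a3] at a1
      · intro h
        obtain ⟨e, he⟩ := ρ.surjective ⟨(τ y, σ x), h⟩
        have a1 := e.2
        have a2 := h4 e
        have a3 := h5 e
        rw [he] at a2 a3
        simp only [ffa, ffb, EmbeddingLike.apply_eq_iff_eq] at a2 a3
        rwa [← a2, ← a3] at a1
    obtain ⟨γ, rfl, rfl⟩ := FR_rigid idx σ τ hR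
    refine ⟨γ, RelIso.ext fun v => ?_⟩
    change vmap M _ _ _ v = _
    cases v with
    | a x => rw [h1]; rfl
    | b y => rw [h2]; rfl
    | s k hk e =>
      rw [h3]
      simp only [vmap, Vx.s.injEq, true_and]
      apply Subtype.ext
      exact Prod.ext (h5 e).symm (h4 e).symm

end

theorem universal (G : Type) [Group G] [Finite G] :
    ∃ (V : Type) (_ : Finite V) (X : SimpleGraph V),
      (∃ (P : PartialOrder V) (L : Fin 3 → LinearOrder V),
        (∀ u v, X.Adj u v ↔ P.lt u v ∨ P.lt v u) ∧ ∀ u v, P.le u v ↔ ∀ i, (L i).le u v) ∧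
      Nonempty (G ≃* (X ≃g X)) := by
  classical
  obtain ⟨n, ⟨idx⟩⟩ := Finite.exists_equiv_fin G
  have := Fintype.ofFinite G
  let M := (Fintype.card (FI idx) + 1) * Fintype.card (G × Fin (n + 1)) + 1
  refine ⟨_, inferInstance, gr (ffa idx) (ffb idx) M,
    dim_gr _ _ (Nat.le_add_left _ _) (Nat.le_succ _),
    ⟨MulEquiv.ofBijective (actHom idx M) (actHom_bijective idx M (Nat.le_add_left _ _))⟩⟩

end Pool.Agent.Lib.MP_89b4f4_co
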