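import Pool.Agent.Lib.MP_89b4f4_co.Keys

set_option autoImplicit false

namespace Pool.Agent.Lib.MP_89b4f4_co

/-- Vertices: points `a`, blocks `b`, and the strand vertices `s k e` on level `k ≤ 6 M`. -/
inductive Vx (A B I : Type) (M : ℕ) : Type
  | a : A → Vx A B I M
  | b : B → Vx A B I M
  | s : (k : ℕ) → k ≤ 6 * M → I → Vx A B I M

section
variable {A B I : Type} {M : ℕ}

/-- The strict order of the height two poset. -/
def Lt (fa : I → A) (fb : I → B) : Vx A B I M → Vx A B I M → Prop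
  | .s k _ e, .a x => k = 0 ∧ fa e = x
  | .s k _ e, .b y => k = 6 * M ∧ fb e = y
  | .s k _ e, .s k' _ e' =>
      k % 2 = 0 ∧ ((e = e' ∧ (k' = k + 1 ∨ k = k' + 1)) ∨ (k % 6 = 0 ∧ k = k' + 5))
  | .a _, _ => False
  | .b _, _ => False

lemma Lt_irrefl (fa : I → A) (fb : I → B) (v : Vx A B I M) : ¬ Lt fa fb v v := by
  cases v with
  | a x => simp [Lt]
  | b y => simp [Lt]
  | s k hk e => simp only [Lt]; omega

/-- The comparability graph. -/
def gr (fa : I → A) (fb : I → B) (M : ℕ) : SimpleGraph (Vx A B I M) where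
  Adj u v := Lt fa fb u v ∨ Lt fa fb v u
  symm := ⟨fun _ _ h => h.symm⟩
  loopless := ⟨fun v h => Lt_irrefl fa fb v (h.elim id id)⟩

instance [Finite A] [Finite B] [Finite I] : Finite (Vx A B I M) := by
  let f : A ⊕ B ⊕ (Fin (6 * M + 1) × I) → Vx A B I M := fun x =>
    match x with
    | .inl x => .a x
    | .inr (.inl y) => .b y
    | .inr (.inr p) => .s p.1 (Nat.lt_succ_iff.mp p.1.2) p.2
  refine Finite.of_surjective f fun v => ?_
  cases v with
  | a x => exact ⟨.inl x, rfl⟩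
  | b y => exact ⟨.inr (.inl y), rfl⟩
  | s k hk e => exact ⟨.inr (.inr (⟨k, Nat.lt_succ_iff.mpr hk⟩, e)), rfl⟩

end

/-- Three injective lexicographic keys give a realizer of size three. -/
lemma dim_of_keys {V : Type} (X : SimpleGraph V) (R : V → V → Prop)
    (hX : ∀ u v, X.Adj u v ↔ R u v ∨ R v u) (κ : Fin 3 → V → ℤ × ℤ × ℤ)
    (hinj : ∀ i, Function.Injective (κ i))
    (hR : ∀ u v, R u v ↔ ∀ i, LexLt (κ i u) (κ i v)) :
    ∃ (P : PartialOrder V) (L : Fin 3 → LinearOrder V),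
      (∀ u v, X.Adj u v ↔ P.lt u v ∨ P.lt v u) ∧ ∀ u v, P.le u v ↔ ∀ i, (L i).le u v := by
  let g : ℤ × ℤ × ℤ → ℤ ×ₗ (ℤ ×ₗ ℤ) := fun x => toLex (x.1, toLex (x.2.1, x.2.2))
  have hg : Function.Injective g := by
    intro x y h
    simp only [g, EmbeddingLike.apply_eq_iff_eq, Prod.mk.injEq] at h
    exact Prod.ext h.1 (Prod.ext h.2.1 h.2.2)
  have hlt : ∀ x y, g x < g y ↔ LexLt x y := by
    intro x y
    simp only [g, LexLt, Prod.Lex.toLex_lt_toLex]
  let L : Fin 3 → LinearOrder V := fun i => LinearOrder.lift' (fun v => g (κ i v)) (hg.comp (hinj i))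
  have hL : ∀ i u v, (L i).le u v ↔ g (κ i u) ≤ g (κ i v) := fun _ _ _ => Iff.rfl
  let P : PartialOrder V :=
    { le := fun u v => ∀ i, g (κ i u) ≤ g (κ i v)
      le_refl := fun _ _ => le_rfl
      le_trans := fun _ _ _ h1 h2 i => (h1 i).trans (h2 i)
      le_antisymm := fun _ _ h1 h2 => hinj 0 (hg (le_antisymm (h1 0) (h2 0))) }
  have hP : ∀ u v, P.lt u v ↔ R u v := by
    intro u v
    rw [hR]
    change ((∀ i, g (κ i u) ≤ g (κ i v)) ∧ ¬ ∀ i, g (κ i v) ≤ g (κ i u)) ↔ _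
    constructor
    · rintro ⟨h1, h2⟩ i
      rw [← hlt]
      refine lt_of_le_of_ne (h1 i) fun h => h2 fun j => ?_
      rw [hinj i (hg h)]
    · intro h
      exact ⟨fun i => ((hlt _ _).mpr (h i)).le, fun h2 => absurd (h2 0) (not_le.mpr ((hlt _ _).mpr (h 0)))⟩
  refine ⟨P, L, fun u v => ?_, fun u v => Iff.rfl⟩
  rw [hP, hP, hX]

section
variable {A B I : Type} {M : ℕ}

/-- The three keys of a vertex. -/
def vkey (K : ℕ) (p q : I → ℕ) (loA hiA : A → ℕ) (loB hiB : B → ℕ) :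
    Fin 3 → Vx A B I M → ℤ × ℤ × ℤ
  | 0, .a x => (2, loA x, 0)
  | 1, .a x => (0, hiA x, 9)
  | 2, .a x => (1, -loA x, 9)
  | 0, .b y => (-2 * M, -(K + loB y), 9)
  | 1, .b y => (-2 * M, K + hiB y, 9)
  | 2, .b y => (4 * M + 8, loB y, 0)
  | 0, .s k _ e => key1 K (p e) (q e) (k / 6) (k % 6)
  | 1, .s k _ e => key2 K (p e) (q e) (k / 6) (k % 6)
  | 2, .s k _ e => key3 K (p e) (q e) (k / 6) (k % 6)

end

lemma sa_lt (K P Q j r lo hi : ℕ) (hr : r < 6) (hP : P < K) :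
    (LexLt (key1 K P Q j r) (2, lo, 0) ∧ LexLt (key2 K P Q j r) (0, hi, 9) ∧
      LexLt (key3 K P Q j r) (1, -lo, 9)) ↔ (6 * j + r = 0 ∧ lo ≤ P ∧ P ≤ hi) := by
  interval_cases r <;> simp only [key1, key2, key3, rk] <;> split_ifs <;>
    simp only [LexLt, true_and, false_and, and_false, or_false, false_or, iff_false,
      lt_self_iff_false] <;> (try constructor) <;> (try intro h) <;> omega

lemma as_lt (K P Q j r lo : ℕ) (hr : r < 6) : ¬ LexLt (2, lo, 0) (key1 K P Q j r) := by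
  interval_cases r <;> simp only [key1, rk] <;> split_ifs <;>
    simp only [LexLt] <;> omega

lemma sb_lt (K M P Q j r lo hi : ℕ) (hr : r < 6) (hP : P < K) (hQ : Q < M)
    (hj : 6 * j + r ≤ 6 * M) :
    (LexLt (key1 K P Q j r) (-2 * M, -(K + lo), 9) ∧
      LexLt (key2 K P Q j r) (-2 * M, K + hi, 9) ∧
      LexLt (key3 K P Q j r) (4 * M + 8, lo, 0)) ↔ (6 * j + r = 6 * M ∧ lo ≤ Q ∧ Q ≤ hi) := by
  interval_cases r <;> simp only [key1, key2, key3, rk] <;> split_ifs <;>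
    simp only [LexLt, true_and, false_and, and_false, or_false, false_or, iff_false,
      lt_self_iff_false] <;> (try constructor) <;> (try intro h) <;> omega

lemma bs_lt (K M P Q j r lo : ℕ) (hr : r < 6) (hj : 6 * j + r ≤ 6 * M) :
    ¬ LexLt (4 * M + 8, lo, 0) (key3 K P Q j r) := by
  interval_cases r <;> simp only [key3, rk] <;> split_ifs <;>
    simp only [LexLt] <;> omega

lemma sa_ne1 (K P Q j r lo : ℕ) (hr : r < 6) : key1 K P Q j r ≠ (2, (lo : ℤ), 0) := by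
  interval_cases r <;> simp only [key1, rk] <;> split_ifs <;>
    simp only [ne_eq, Prod.mk.injEq] <;> omega

lemma sa_ne2 (K P Q j r : ℕ) (x y : ℤ) (hr : r < 6) : key2 K P Q j r ≠ (x, y, 9) := by
  interval_cases r <;> simp only [key2, rk] <;> split_ifs <;>
    simp only [ne_eq, Prod.mk.injEq] <;> omega

lemma sa_ne3 (K P Q j r : ℕ) (x y : ℤ) (hr : r < 6) : key3 K P Q j r ≠ (x, y, 9) := by
  interval_cases r <;> simp only [key3, rk] <;> split_ifs <;>
    simp only [ne_eq, Prod.mk.injEq] <;> omega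

lemma sb_ne1 (K P Q j r : ℕ) (x y : ℤ) (hr : r < 6) : key1 K P Q j r ≠ (x, y, 9) := by
  interval_cases r <;> simp only [key1, rk] <;> split_ifs <;>
    simp only [ne_eq, Prod.mk.injEq] <;> omega

lemma sb_ne3 (K M P Q j r lo : ℕ) (hr : r < 6) (hj : 6 * j + r ≤ 6 * M) :
    key3 K P Q j r ≠ (4 * (M : ℤ) + 8, (lo : ℤ), 0) := by
  interval_cases r <;> simp only [key3, rk] <;> split_ifs <;>
    simp only [ne_eq, Prod.mk.injEq] <;> omega

end Pool.Agent.Lib.MP_89b4f4_co
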