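import Mathlib

set_option autoImplicit false

namespace Pool.Agent.Lib.MP_89b4f4_co

/-- Lexicographic comparison of triples of integers. -/
def LexLt (x y : ℤ × ℤ × ℤ) : Prop :=
  x.1 < y.1 ∨ (x.1 = y.1 ∧ (x.2.1 < y.2.1 ∨ (x.2.1 = y.2.1 ∧ x.2.2 < y.2.2)))

/-- Position of a strand in the ribbon before the j-th gadget. -/
def rk (K P Q j : ℕ) : ℤ := if Q < j then (K : ℤ) + Q else P

def key1 (K P Q j : ℕ) : ℕ → ℤ × ℤ × ℤ
  | 0 => (-2 * j, -rk K P Q j, 1)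
  | 1 => (-2 * j, -rk K P Q j, 2)
  | 2 => (-2 * j, -rk K P Q j, 0)
  | 3 => if Q = j then (-2 * j, -rk K P Q j, 5) else (-2 * j + 1, rk K P Q j, 5)
  | 4 => if Q = j then (-2 * j, -rk K P Q j, 3) else (-2 * j + 1, rk K P Q j, 3)
  | _ => if Q = j then (-2 * j, -rk K P Q j, 4) else (-2 * j + 1, rk K P Q j, 4)

def key2 (K P Q j : ℕ) : ℕ → ℤ × ℤ × ℤ
  | 0 => (-2 * j, rk K P Q j, 4)
  | 1 => (-2 * j, rk K P Q j, 6)
  | 2 => if Q = j then (-2 * j, rk K P Q j, 2) else (-2 * j - 3, -rk K P Q j, 0)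
  | 3 => if Q = j then (-2 * j, rk K P Q j, 3) else (-2 * j - 3, -rk K P Q j, 2)
  | 4 => if Q = j then (-2 * j, rk K P Q j, 0) else (-2 * j - 3, -rk K P Q j, 1)
  | _ => if Q = j then (-2 * j, rk K P Q j, 1) else (-2 * j - 2, rk K P Q j, 5)

def key3 (K P Q j : ℕ) : ℕ → ℤ × ℤ × ℤ
  | 0 => if Q + 1 = j then (4 * j, 0, 3) else (4 * j + 1, -rk K P Q j, 0)
  | 1 => if Q = j then (4 * j + 6, 0, 0) else (4 * j + 7, rk K P Q j, 1)
  | 2 => if Q = j then (4 * j + 4, 0, 0) else (4 * j + 7, rk K P Q j, 0)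
  | 3 => if Q = j then (4 * j + 4, 0, 2) else (4 * j + 7, rk K P Q j, 2)
  | 4 => if Q = j then (4 * j + 4, 0, 1) else (4 * j + 5, -rk K P Q j, 1)
  | _ => if Q = j then (4 * j + 4, 0, 4) else (4 * j + 5, -rk K P Q j, 2)

lemma ss_lt (K P Q j r P' Q' j' r' : ℕ) (hr : r < 6) (hr' : r' < 6) (hP : P < K) (hP' : P' < K)
    (hPQ : P = P' ↔ Q = Q') :
    (LexLt (key1 K P Q j r) (key1 K P' Q' j' r') ∧ LexLt (key2 K P Q j r) (key2 K P' Q' j' r') ∧
      LexLt (key3 K P Q j r) (key3 K P' Q' j' r')) ↔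
    (r % 2 = 0 ∧ ((P = P' ∧ (6 * j' + r' = 6 * j + r + 1 ∨ 6 * j + r = 6 * j' + r' + 1)) ∨
      (r = 0 ∧ 6 * j + r = 6 * j' + r' + 5))) := by
  have h2 : (P = P' ∧ Q = Q') ∨ (P ≠ P' ∧ Q ≠ Q') := by tauto
  clear hPQ
  interval_cases r <;> interval_cases r' <;> simp only [key1, key2, key3, rk] <;> split_ifs <;>
    simp only [LexLt, true_and, false_and, and_false, or_false, false_or, iff_false,
      lt_self_iff_false] <;> (try constructor) <;> (try intro h) <;> omega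

lemma ss_inj1 (K P Q j r P' Q' j' r' : ℕ) (hr : r < 6) (hr' : r' < 6) (hP : P < K) (hP' : P' < K)
    (hPQ : P = P' ↔ Q = Q') (h : key1 K P Q j r = key1 K P' Q' j' r') :
    P = P' ∧ j = j' ∧ r = r' := by
  have h2 : (P = P' ∧ Q = Q') ∨ (P ≠ P' ∧ Q ≠ Q') := by tauto
  clear hPQ
  revert h
  interval_cases r <;> interval_cases r' <;> simp only [key1, rk] <;> split_ifs <;>
    simp only [Prod.mk.injEq] <;> intro h <;> (try simp only [and_true]) <;> omega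

lemma ss_inj2 (K P Q j r P' Q' j' r' : ℕ) (hr : r < 6) (hr' : r' < 6) (hP : P < K) (hP' : P' < K)
    (hPQ : P = P' ↔ Q = Q') (h : key2 K P Q j r = key2 K P' Q' j' r') :
    P = P' ∧ j = j' ∧ r = r' := by
  have h2 : (P = P' ∧ Q = Q') ∨ (P ≠ P' ∧ Q ≠ Q') := by tauto
  clear hPQ
  revert h
  interval_cases r <;> interval_cases r' <;> simp only [key2, rk] <;> split_ifs <;>
    simp only [Prod.mk.injEq] <;> intro h <;> (try simp only [and_true]) <;> omega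

lemma ss_inj3 (K P Q j r P' Q' j' r' : ℕ) (hr : r < 6) (hr' : r' < 6) (hP : P < K) (hP' : P' < K)
    (hPQ : P = P' ↔ Q = Q') (h : key3 K P Q j r = key3 K P' Q' j' r') :
    P = P' ∧ j = j' ∧ r = r' := by
  have h2 : (P = P' ∧ Q = Q') ∨ (P ≠ P' ∧ Q ≠ Q') := by tauto
  clear hPQ
  revert h
  interval_cases r <;> interval_cases r' <;> simp only [key3, rk] <;> split_ifs <;>
    simp only [Prod.mk.injEq] <;> intro h <;> (try simp only [and_true]) <;> omega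

end Pool.Agent.Lib.MP_89b4f4_co
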