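import Pool.Agent.Lib.MP_89b4f4_co.Frucht

set_option autoImplicit false

namespace Pool.Agent.Lib.MP_89b4f4_co

lemma dim_of_keys' {V : Type} (R : V → V → Prop) (κ : Fin 3 → V → ℤ × ℤ × ℤ)
    (hinj : ∀ i, Function.Injective (κ i))
    (hR : ∀ u v, R u v ↔ ∀ i, LexLt (κ i u) (κ i v)) :
    ∃ (P : PartialOrder V) (L : Fin 3 → LinearOrder V),
      (∀ u v, P.lt u v ↔ R u v) ∧ ∀ u v, P.le u v ↔ ∀ i, (L i).le u v := by
  let g : ℤ × ℤ × ℤ → ℤ ×ₗ (ℤ ×ₗ ℤ) := fun x => toLex (x.1, toLex (x.2.1, x.2.2))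
  have hg : Function.Injective g := by
    intro x y h
    simp only [g, EmbeddingLike.apply_eq_iff_eq, Prod.mk.injEq] at h
    exact Prod.ext h.1 (Prod.ext h.2.1 h.2.2)
  have hlt : ∀ x y, g x < g y ↔ LexLt x y := by
    intro x y
    simp only [g, LexLt, Prod.Lex.toLex_lt_toLex]
  let L : Fin 3 → LinearOrder V := fun i => LinearOrder.lift' (fun v => g (κ i v)) (hg.comp (hinj i))
  have hL : ∀ i u v, (L i).le u v ↔ g (κ i u) ≤ g (κ i v) := fun _ _ _ => Iff.rfl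
  let P : PartialOrder V :=
    { le := fun u v => ∀ i, g (κ i u) ≤ g (κ i v)
      le_refl := fun _ _ => le_rfl
      le_trans := fun _ _ _ h1 h2 i => (h1 i).trans (h2 i)
      le_antisymm := fun _ _ h1 h2 => hinj 0 (hg (le_antisymm (h1 0) (h2 0))) }
  have hP : ∀ u v, P.lt u v ↔ R u v := by
    intro u v
    rw [hR]
    change ((∀ i, g (κ i u) ≤ g (κ i v)) ∧ ¬ ∀ i, g (κ i v) ≤ g (κ i u)) ↔ _
    constructor
    · rintro ⟨h1, h2⟩ i
      rw [← hlt]
      refine lt_of_le_of_ne (h1 i) fun h => h2 fun j => ?_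
      rw [hinj i (hg h)]
    · intro h
      exact ⟨fun i => ((hlt _ _).mpr (h i)).le, fun h2 => absurd (h2 0) (not_le.mpr ((hlt _ _).mpr (h 0)))⟩
  exact ⟨P, L, hP, fun u v => Iff.rfl⟩

section
variable {A B I : Type} {M : ℕ}

lemma dim_of_pos' (fa : I → A) (fb : I → B) (hM : 1 ≤ M) (K : ℕ) (p q : I → ℕ)
    (loA hiA : A → ℕ) (loB hiB : B → ℕ) (hp : Function.Injective p) (hq : Function.Injective q)
    (hpK : ∀ e, p e < K) (hqM : ∀ e, q e < M)
    (h1 : Function.Injective loA) (h2 : Function.Injective hiA)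
    (h3 : Function.Injective loB) (h4 : Function.Injective hiB)
    (hA : ∀ e x, fa e = x ↔ loA x ≤ p e ∧ p e ≤ hiA x)
    (hB : ∀ e y, fb e = y ↔ loB y ≤ q e ∧ q e ≤ hiB y) :
    ∃ (P : PartialOrder (Vx A B I M)) (L : Fin 3 → LinearOrder (Vx A B I M)),
      (∀ u v, P.lt u v ↔ Lt fa fb u v) ∧
        ∀ u v, P.le u v ↔ ∀ i, (L i).le u v := by
  have hpq : ∀ e e', p e = p e' ↔ q e = q e' := fun e e' => by rw [hp.eq_iff, hq.eq_iff]
  have hr : ∀ k : ℕ, k % 6 < 6 := fun k => Nat.mod_lt _ (by norm_num)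
  have hd : ∀ k : ℕ, 6 * (k / 6) + k % 6 = k := fun k => Nat.div_add_mod k 6
  refine dim_of_keys' (Lt fa fb) (vkey K p q loA hiA loB hiB) ?_ ?_
  · have hs : ∀ (k k' : ℕ) (hk : k ≤ 6 * M) (hk' : k' ≤ 6 * M) (e e' : I),
        (p e = p e' ∧ k / 6 = k' / 6 ∧ k % 6 = k' % 6) →
        (Vx.s k hk e : Vx A B I M) = Vx.s k' hk' e' := by
      intro k k' hk hk' e e' ⟨a1, a2, a3⟩
      have : k = k' := by omega
      subst this
      rw [hp a1]
    intro i u v h
    fin_cases i <;> cases u <;> cases v <;> simp only [vkey, Prod.mk.injEq] at h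
    · exact congrArg Vx.a (h1 (by omega))
    · omega
    · exact absurd h.symm (sa_ne1 _ _ _ _ _ _ (hr _))
    · omega
    · exact congrArg Vx.b (h3 (by omega))
    · exact absurd h.symm (sb_ne1 _ _ _ _ _ _ _ (hr _))
    · exact absurd h (sa_ne1 _ _ _ _ _ _ (hr _))
    · exact absurd h (sb_ne1 _ _ _ _ _ _ _ (hr _))
    · exact hs _ _ _ _ _ _ (ss_inj1 _ _ _ _ _ _ _ _ _ (hr _) (hr _) (hpK _) (hpK _) (hpq _ _) h)
    · exact congrArg Vx.a (h2 (by omega))
    · omega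
    · exact absurd h.symm (sa_ne2 _ _ _ _ _ _ _ (hr _))
    · omega
    · exact congrArg Vx.b (h4 (by omega))
    · exact absurd h.symm (sa_ne2 _ _ _ _ _ _ _ (hr _))
    · exact absurd h (sa_ne2 _ _ _ _ _ _ _ (hr _))
    · exact absurd h (sa_ne2 _ _ _ _ _ _ _ (hr _))
    · exact hs _ _ _ _ _ _ (ss_inj2 _ _ _ _ _ _ _ _ _ (hr _) (hr _) (hpK _) (hpK _) (hpq _ _) h)
    · exact congrArg Vx.a (h1 (by omega))
    · omega
    · exact absurd h.symm (sa_ne3 _ _ _ _ _ _ _ (hr _))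
    · omega
    · exact congrArg Vx.b (h3 (by omega))
    · rename_i k hk e
      exact absurd h.symm (sb_ne3 _ _ _ _ _ _ _ (hr _) (by rw [hd]; exact hk))
    · exact absurd h (sa_ne3 _ _ _ _ _ _ _ (hr _))
    · rename_i k hk e y
      exact absurd h (sb_ne3 _ _ _ _ _ _ _ (hr _) (by rw [hd]; exact hk))
    · exact hs _ _ _ _ _ _ (ss_inj3 _ _ _ _ _ _ _ _ _ (hr _) (hr _) (hpK _) (hpK _) (hpq _ _) h)
  · intro u v
    rw [Fin.forall_fin_succ, Fin.forall_fin_two]
    change _ ↔ (LexLt (vkey K p q loA hiA loB hiB 0 u) (vkey K p q loA hiA loB hiB 0 v) ∧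
      LexLt (vkey K p q loA hiA loB hiB 1 u) (vkey K p q loA hiA loB hiB 1 v) ∧
      LexLt (vkey K p q loA hiA loB hiB 2 u) (vkey K p q loA hiA loB hiB 2 v))
    cases u with
    | a x =>
      cases v with
      | a x' => simp only [Lt, vkey, LexLt, false_iff]; omega
      | b y => simp only [Lt, vkey, LexLt, false_iff]; omega
      | s k hk e =>
        simp only [Lt, vkey, false_iff]
        exact fun h => as_lt _ _ _ _ _ _ (hr _) h.1
    | b y =>
      cases v with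
      | a x' => simp only [Lt, vkey, LexLt, false_iff]; omega
      | b y => simp only [Lt, vkey, LexLt, false_iff]; omega
      | s k hk e =>
        simp only [Lt, vkey, false_iff]
        exact fun h => bs_lt _ _ _ _ _ _ _ (hr _) (by rw [hd]; exact hk) h.2.2
    | s k hk e =>
      cases v with
      | a x' =>
        simp only [Lt, vkey]
        rw [sa_lt _ _ _ _ _ _ _ (hr _) (hpK _), hd, hA]
      | b y =>
        simp only [Lt, vkey]
        rw [sb_lt _ _ _ _ _ _ _ _ (hr _) (hpK _) (hqM _) (by rw [hd]; exact hk), hd, hB]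
      | s k' hk' e' =>
        simp only [Lt, vkey]
        rw [ss_lt _ _ _ _ _ _ _ _ _ (hr _) (hr _) (hpK _) (hpK _) (hpq _ _), hd, hd, hp.eq_iff]
        have : k % 6 % 2 = k % 2 := by omega
        rw [this]
theorem dim_gr' [Fintype A] [Fintype B] [Fintype I] (fa : I → A) (fb : I → B) (hM : 1 ≤ M)
    (hM' : (Fintype.card I + 1) * Fintype.card B ≤ M) :
    ∃ (P : PartialOrder (Vx A B I M)) (L : Fin 3 → LinearOrder (Vx A B I M)),
      (∀ u v, P.lt u v ↔ Lt fa fb u v) ∧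
        ∀ u v, P.le u v ↔ ∀ i, (L i).le u v := by
  obtain ⟨p, loA, hiA, a1, a2, a3, a4, a5⟩ := exists_pos fa
  obtain ⟨q, loB, hiB, b1, b2, b3, b4, b5⟩ := exists_pos fb
  exact dim_of_pos' fa fb hM _ p q loA hiA loB hiB a1 b1 a2 (fun e => (b2 e).trans_le hM')
    a3 a4 b3 b4 a5 b5

end

end Pool.Agent.Lib.MP_89b4f4_co
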