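import Pool.Agent.Lib.MP_89b4f4_co.LatA

set_option autoImplicit false

namespace Pool.Agent.Lib.MP_89b4f4_co

open DedekindCut

section
variable {V : Type} [PartialOrder V]

instance finite_cut [Finite V] : Finite (DedekindCut V) :=
  Finite.of_injective _ Concept.extent_injective

/-- The completion has the same dimension. -/
theorem dim_cut [Finite V] (L : Fin 3 → LinearOrder V) (hL : ∀ u v : V, u ≤ v ↔ ∀ i, (L i).le u v) :
    ∃ L' : Fin 3 → LinearOrder (DedekindCut V), ∀ x y, x ≤ y ↔ ∀ i, (L' i).le x y := by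
  let S : Fin 3 → DedekindCut V → Set V := fun i A => {w | ∃ x ∈ A.left, (L i).le w x}
  let n : Fin 3 → DedekindCut V → ℕ := fun i A => (S i A).ncard
  have h1 : ∀ A B, A ≤ B → ∀ i, n i A ≤ n i B := fun A B h i =>
    Set.ncard_le_ncard (fun w ⟨x, hx, hw⟩ => ⟨x, Concept.extent_subset_extent_iff.2 h hx, hw⟩)
  have h2 : ∀ A B, ¬ A ≤ B → ∃ i, n i B < n i A := fun A B h => by
    rw [← Concept.extent_subset_extent_iff, Set.not_subset] at h
    obtain ⟨x, hx, hx'⟩ := h
    have : x ∉ lowerBounds B.right := by rwa [lowerBounds_right]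
    simp only [mem_lowerBounds, not_forall] at this
    obtain ⟨y, hy, hxy⟩ := this
    rw [hL, not_forall] at hxy
    obtain ⟨i, hi⟩ := hxy
    have hz : ∀ z ∈ B.left, (L i).le z y := fun z hz =>
      (hL _ _).1 (Concept.rel_extent_intent hz hy) i
    refine ⟨i, Set.ncard_lt_ncard ⟨fun w ⟨z, h3, h4⟩ => ⟨x, hx, ?_⟩, fun h => ?_⟩⟩
    · exact (L i).le_trans _ _ _ ((L i).le_trans _ _ _ h4 (hz z h3))
        (((L i).le_total x y).resolve_left hi)
    · obtain ⟨z, h3, h4⟩ := h ⟨x, hx, (L i).le_refl x⟩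
      exact hi ((L i).le_trans _ _ _ h4 (hz z h3))
  obtain ⟨t, ht⟩ := Countable.exists_injective_nat (DedekindCut V)
  let κ : Fin 3 → DedekindCut V → ℕ ×ₗ (ℕ ×ₗ ℕ) := fun i A =>
    toLex (n i A, toLex (n 0 A + n 1 A + n 2 A, t A))
  have hκ : ∀ i, Function.Injective (κ i) := fun i A B h => by
    simp only [κ, EmbeddingLike.apply_eq_iff_eq, Prod.mk.injEq] at h
    exact ht h.2.2
  refine ⟨fun i => LinearOrder.lift' (κ i) (hκ i), fun A B => ?_⟩
  change _ ↔ ∀ i, κ i A ≤ κ i B
  simp only [κ, Prod.Lex.toLex_le_toLex]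
  constructor
  · intro h i
    by_cases h' : B ≤ A
    · rw [le_antisymm h h']
      simp
    · obtain ⟨j, hj⟩ := h2 _ _ h'
      have a0 := h1 _ _ h 0
      have a1 := h1 _ _ h 1
      have a2 := h1 _ _ h 2
      have ai := h1 _ _ h i
      have : n 0 A + n 1 A + n 2 A < n 0 B + n 1 B + n 2 B := by
        fin_cases j <;> simp only [Fin.zero_eta, Fin.mk_one, Fin.reduceFinMk] at hj <;> omega
      omega
  · intro h
    by_contra h'
    obtain ⟨i, hi⟩ := h2 _ _ h'
    have := h i
    omega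

/-- An automorphism acts on cuts. -/
def cmap (φ : V ≃o V) (A : DedekindCut V) : DedekindCut V where
  extent := {x | φ.symm x ∈ A.left}
  intent := {x | φ.symm x ∈ A.right}
  upperPolar_extent := by
    ext b
    rw [← upperBounds_left]
    constructor
    · intro h a ha
      exact φ.le_symm_apply.2 (h (by simpa using ha))
    · intro h a ha
      exact φ.symm.le_iff_le.1 (h ha)
  lowerPolar_intent := by
    ext b
    rw [← lowerBounds_right]
    constructor
    · intro h a ha
      exact φ.symm_apply_le.2 (h (by simpa using ha))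
    · intro h a ha
      exact φ.symm.le_iff_le.1 (h ha)

theorem mem_cmap {φ : V ≃o V} {A : DedekindCut V} {x : V} :
    x ∈ (cmap φ A).left ↔ φ.symm x ∈ A.left := Iff.rfl

/-- The action on cuts as an order isomorphism. -/
def cmapIso (φ : V ≃o V) : DedekindCut V ≃o DedekindCut V where
  toFun := cmap φ
  invFun := cmap φ.symm
  left_inv A := by ext x; simp [mem_cmap]
  right_inv A := by ext x; simp [mem_cmap]
  map_rel_iff' := by
    intro A B
    simp only [Equiv.coe_fn_mk, ← Concept.extent_subset_extent_iff]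
    exact ⟨fun h x hx => by simpa [mem_cmap] using @h (φ x) (by simpa [mem_cmap] using hx),
      fun h x hx => h hx⟩

/-- The action on cuts as a homomorphism. -/
def cmapHom : (V ≃o V) →* (DedekindCut V ≃o DedekindCut V) where
  toFun := cmapIso
  map_one' := RelIso.ext fun _ => rfl
  map_mul' _ _ := RelIso.ext fun _ => rfl

theorem principal_iff (h2 : ∀ a b c : V, a < b → ¬ b < c) (hb : ∀ v : V, ∃ w, ¬ v ≤ w)
    (ht : ∀ v : V, ∃ w, ¬ w ≤ v) (A : DedekindCut V) :
    (∃ a, A = principal a) ↔ IsAtom A ∨ IsCoatom A := by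
  have nb : ∀ a : V, principal a ≠ ⊥ := fun a h => by
    obtain ⟨w, hw⟩ := hb a
    exact hw (principal_le_principal.1 (h ▸ bot_le))
  have nt : ∀ a : V, principal a ≠ ⊤ := fun a h => by
    obtain ⟨w, hw⟩ := ht a
    exact hw (principal_le_principal.1 (h ▸ le_top))
  constructor
  · rintro ⟨a, rfl⟩
    by_cases h : ∃ b, b < a
    · obtain ⟨b, hba⟩ := h
      refine Or.inr ⟨nt a, fun B hB => top_le_iff.1 (Concept.intent_subset_intent_iff.1 ?_)⟩
      intro y hy
      have h3 : a ≤ y := Concept.intent_subset_intent_iff.2 hB.le hy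
      rcases h3.eq_or_lt with rfl | h3
      · exact absurd (le_principal_iff.2 hy) hB.not_ge
      · exact absurd h3 (h2 _ _ _ hba)
    · refine Or.inl ⟨nb a, fun B hB => le_bot_iff.1 (Concept.extent_subset_extent_iff.1 ?_)⟩
      intro y hy
      have h3 : y ≤ a := Concept.extent_subset_extent_iff.2 hB.le hy
      rcases h3.eq_or_lt with rfl | h3
      · exact absurd (principal_le_iff.2 hy) hB.not_ge
      · exact absurd ⟨y, h3⟩ h
  · rintro (h | h)
    · obtain ⟨x, hx, -⟩ := Set.not_subset.1 fun h' =>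
        h.1 (le_bot_iff.1 (Concept.extent_subset_extent_iff.1 h'))
      exact ⟨x, ((h.le_iff.1 (principal_le_iff.2 hx)).resolve_left (nb x)).symm⟩
    · obtain ⟨x, hx, -⟩ := Set.not_subset.1 fun h' =>
        h.1 (top_le_iff.1 (Concept.intent_subset_intent_iff.1 h'))
      exact ⟨x, ((h.le_iff.1 (le_principal_iff.2 hx)).resolve_left (nt x)).symm⟩

theorem cmapHom_bijective (h2 : ∀ a b c : V, a < b → ¬ b < c) (hb : ∀ v : V, ∃ w, ¬ v ≤ w)
    (ht : ∀ v : V, ∃ w, ¬ w ≤ v) : Function.Bijective (cmapHom (V := V)) := by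
  constructor
  · intro φ ψ h
    refine RelIso.ext fun a => ?_
    have h1 : ∀ x, x ∈ (cmap φ (principal a)).left ↔ x ∈ (cmap ψ (principal a)).left := fun x => by
      rw [show cmap φ (principal a) = cmap ψ (principal a) from
        congrArg (fun Θ : DedekindCut V ≃o DedekindCut V => Θ (principal a)) h]
    simp only [mem_cmap, left_principal, Set.mem_Iic, OrderIso.symm_apply_le] at h1
    exact le_antisymm ((h1 _).1 le_rfl) ((h1 _).2 le_rfl)
  · intro Θ
    have key : ∀ (Θ : DedekindCut V ≃o DedekindCut V) (a : V), ∃ b, Θ (principal a) = principal b :=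
      fun Θ a => (principal_iff h2 hb ht _).2 (by
        rw [Θ.isAtom_iff, Θ.isCoatom_iff]
        exact (principal_iff h2 hb ht _).1 ⟨a, rfl⟩)
    obtain ⟨σ, hσ⟩ := exists_equiv_of_restrict Θ.toEquiv principal principal
      (fun _ _ h => principal_inj.1 h) (fun _ _ h => principal_inj.1 h) (key Θ) (key Θ.symm)
    change ∀ x, Θ _ = _ at hσ
    let φ : V ≃o V := ⟨σ, by
      intro a b
      rw [← principal_le_principal, ← hσ, ← hσ, Θ.le_iff_le, principal_le_principal]⟩
    refine ⟨φ, RelIso.ext fun A => ?_⟩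
    change cmap φ A = Θ A
    ext x
    rw [mem_cmap, ← principal_le_iff, ← principal_le_iff, ← Θ.le_iff_le, hσ]
    change principal (φ (φ.symm x)) ≤ _ ↔ _
    rw [φ.apply_symm_apply]

/-- If all automorphisms of the comparability graph keep the order, the two groups agree. -/
def autEquiv (X : SimpleGraph V) (hX : ∀ u v, X.Adj u v ↔ u < v ∨ v < u)
    (h : ∀ (φ : X ≃g X) u v, φ u < φ v ↔ u < v) : (X ≃g X) ≃* (V ≃o V) where
  toFun φ := ⟨φ.toEquiv, by
    intro a b
    change φ a ≤ φ b ↔ _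
    rw [le_iff_lt_or_eq, le_iff_lt_or_eq, h, φ.injective.eq_iff]⟩
  invFun ψ := ⟨ψ.toEquiv, by
    intro a b
    change X.Adj (ψ a) (ψ b) ↔ _
    rw [hX, hX, ψ.lt_iff_lt, ψ.lt_iff_lt]⟩
  left_inv _ := rfl
  right_inv _ := rfl
  map_mul' _ _ := rfl

end

theorem lattice_universal (G : Type) [Group G] [Finite G] :
    ∃ (Λ : Type) (_ : Finite Λ) (_ : Lattice Λ) (L : Fin 3 → LinearOrder Λ),
      (∀ x y : Λ, x ≤ y ↔ ∀ i, (L i).le x y) ∧ Nonempty (G ≃* (Λ ≃o Λ)) := by
  classical
  obtain ⟨n, ⟨idx⟩⟩ := Finite.exists_equiv_fin G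
  have := Fintype.ofFinite G
  let M := (Fintype.card (FI idx) + 1) * Fintype.card (G × Fin (n + 1)) + 1
  have hM : 1 ≤ M := Nat.le_add_left _ _
  have hs : Function.Surjective (ffb idx) := fun y => ⟨⟨(y, .inr y.1), rfl⟩, rfl⟩
  obtain ⟨e₀, -⟩ := hs (1, 0)
  obtain ⟨P, L, h1, h2⟩ := dim_gr' (M := M) (ffa idx) (ffb idx) hM (Nat.le_succ _)
  let _ := P
  have h1' : ∀ u v : Vx (G ⊕ G) (G × Fin (n + 1)) (FI idx) M,
      u < v ↔ Lt (ffa idx) (ffb idx) u v := h1
  obtain ⟨L', hL'⟩ := dim_cut L h2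
  have hh : ∀ a b c : Vx (G ⊕ G) (G × Fin (n + 1)) (FI idx) M, a < b → ¬ b < c := by
    intro a b c
    rw [h1', h1']
    cases a <;> cases b <;> cases c <;> simp only [Lt, not_false_eq_true, implies_true,
      IsEmpty.forall_iff] <;> omega
  have hb : ∀ v : Vx (G ⊕ G) (G × Fin (n + 1)) (FI idx) M, ∃ w, ¬ v ≤ w := by
    intro v
    by_contra hv
    push Not at hv
    have m : ∀ k hk, k % 2 = 0 → v = .s k hk e₀ := fun k hk hk2 =>
      (hv _).eq_or_lt.resolve_right (by
        rw [h1']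
        cases v <;> simp only [Lt, not_false_eq_true]
        omega)
    have := (m 0 (by omega) rfl).symm.trans (m 2 (by omega) rfl)
    simp at this
  have ht : ∀ v : Vx (G ⊕ G) (G × Fin (n + 1)) (FI idx) M, ∃ w, ¬ w ≤ v := by
    intro v
    by_contra hv
    push Not at hv
    have m : ∀ k hk, k % 2 = 1 → .s k hk e₀ = v := fun k hk hk2 =>
      (hv _).eq_or_lt.resolve_right (by
        rw [h1']
        cases v <;> simp only [Lt] <;> omega)
    have := (m 1 (by omega) rfl).trans (m 3 (by omega) rfl).symm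
    simp at this
  refine ⟨DedekindCut _, inferInstance, inferInstance, L', hL',
    ⟨((MulEquiv.ofBijective (actHom idx M) (actHom_bijective idx M hM)).trans
      (autEquiv _ (fun u v => by rw [h1', h1']; rfl) fun φ u v => ?_)).trans
        (MulEquiv.ofBijective cmapHom (cmapHom_bijective hh hb ht))⟩⟩
  obtain ⟨σ, τ, ρ, a1, a2, a3, a4, a5⟩ := rigid hM hs hs φ
  rw [h1', h1']
  cases u <;> cases v <;> simp [a1, a2, a3, a4, a5, Lt]

end Pool.Agent.Lib.MP_89b4f4_co
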