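import Pool.Agent.Lib.MP_89b4f4_co.Rigid
import Pool.Agent.Shared.PolyTime

set_option autoImplicit false

namespace Pool.Agent.Lib.MP_89b4f4_co

open Pool.Agent.Shared.PolyTime

section
variable {V W : Type}

open Classical in
/-- The point of the flag `(u, v, c)` in the incidence structure of a graph. -/
noncomputable def gfa (G : SimpleGraph V) (e : V × V × Bool) : V :=
  if e.2.2 = true ∧ G.Adj e.1 e.2.1 then e.2.1 else e.1

/-- The block of the flag `(u, v, c)`. -/
def gfb (V : Type) (e : V × V × Bool) : V × V := (e.1, e.2.1)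

lemma gfb_surj : Function.Surjective (gfb V) := fun y => ⟨(y.1, y.2, false), rfl⟩

lemma adj_of_inc {G : SimpleGraph V} {H : SimpleGraph W} (σ : V ≃ W) (τ : V × V → W × W)
    (ρ : V × V × Bool → W × W × Bool) (ha : ∀ e, gfa H (ρ e) = σ (gfa G e))
    (hb : ∀ e, gfb W (ρ e) = τ (gfb V e)) {u v : V} (h : G.Adj u v) : H.Adj (σ u) (σ v) := by
  have a1 := ha (u, v, false)
  have a2 := ha (u, v, true)
  have b1 := (hb (u, v, false)).trans (hb (u, v, true)).symm
  have e1 : gfa G (u, v, false) = u := by simp [gfa]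
  have e2 : gfa G (u, v, true) = v := by simp [gfa, h]
  rw [e1] at a1
  rw [e2] at a2
  have hne : σ u ≠ σ v := σ.injective.ne h.ne
  rw [← a1, ← a2] at hne ⊢
  generalize ρ (u, v, false) = x at *
  generalize ρ (u, v, true) = y at *
  obtain ⟨x1, x2, x3⟩ := x
  obtain ⟨y1, y2, y3⟩ := y
  simp only [gfb, Prod.mk.injEq] at b1
  obtain ⟨rfl, rfl⟩ := b1
  unfold gfa at hne ⊢
  split_ifs at hne ⊢ with c1 c2 c2
  · exact absurd rfl hne
  · exact c1.2.symm
  · exact c2.2
  · exact absurd rfl hne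

theorem iso_iff (G : SimpleGraph V) (H : SimpleGraph W) {M : ℕ} (hM : 1 ≤ M) :
    Nonempty (G ≃g H) ↔ Nonempty (gr (gfa G) (gfb V) M ≃g gr (gfa H) (gfb W) M) := by
  constructor
  · rintro ⟨φ⟩
    refine ⟨mapIso M φ.toEquiv (Equiv.prodCongr φ.toEquiv φ.toEquiv)
      (Equiv.prodCongr φ.toEquiv (Equiv.prodCongr φ.toEquiv (Equiv.refl _))) ?_ fun _ => rfl⟩
    rintro ⟨u, v, c⟩
    by_cases h : c = true ∧ G.Adj u v
    · have h' : c = true ∧ H.Adj (φ u) (φ v) := ⟨h.1, φ.map_adj_iff.mpr h.2⟩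
      simp [gfa, h, h']
    · have h' : ¬ (c = true ∧ H.Adj (φ u) (φ v)) := fun h2 => h ⟨h2.1, φ.map_adj_iff.mp h2.2⟩
      simp [gfa, h, h']
  · rintro ⟨φ⟩
    obtain ⟨σ, τ, ρ, -, -, -, h4, h5⟩ := rigid hM gfb_surj gfb_surj φ
    refine ⟨⟨σ, fun {u v} => ⟨fun h => ?_, fun h => adj_of_inc σ τ ρ h4 h5 h⟩⟩⟩
    have := adj_of_inc σ.symm τ.symm ρ.symm
      (fun e => by rw [Equiv.eq_symm_apply, ← h4, Equiv.apply_symm_apply])
      (fun e => by rw [Equiv.eq_symm_apply, ← h5, Equiv.apply_symm_apply]) h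
    simpa using this

lemma dim_of_iso {X : SimpleGraph V} {Y : SimpleGraph W} (φ : X ≃g Y)
    (h : ∃ (P : PartialOrder W) (L : Fin 3 → LinearOrder W),
      (∀ u v, Y.Adj u v ↔ P.lt u v ∨ P.lt v u) ∧ ∀ u v, P.le u v ↔ ∀ i, (L i).le u v) :
    ∃ (P : PartialOrder V) (L : Fin 3 → LinearOrder V),
      (∀ u v, X.Adj u v ↔ P.lt u v ∨ P.lt v u) ∧ ∀ u v, P.le u v ↔ ∀ i, (L i).le u v := by
  obtain ⟨P, L, h1, h2⟩ := h
  refine ⟨@PartialOrder.lift V W P φ φ.injective,
    fun i => @LinearOrder.lift' V W (L i) φ φ.injective, fun u v => ?_, fun u v => h2 _ _⟩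
  rw [← φ.map_adj_iff]
  exact h1 _ _

end

/-- The graph of a matrix. -/
def mgr (m : List (List Bool)) : SimpleGraph (Fin m.length) :=
  SimpleGraph.fromRel fun i j => (m.getD i []).getD j false = true

lemma bridge {V C : Type} (X : SimpleGraph V) (L : List C) (hL : L.Nodup) (enc : V → C)
    (henc : Function.Injective enc) (hmem : ∀ c, c ∈ L ↔ ∃ v, enc v = c) (r : C → C → Bool)
    (hr : ∀ u v, r (enc u) (enc v) = true ↔ X.Adj u v) :
    Nonempty (mgr (L.map fun c => L.map (r c)) ≃g X) ∧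
      (∀ row ∈ (L.map fun c => L.map (r c)), row.length = (L.map fun c => L.map (r c)).length) ∧
      ∀ i j : Fin (L.map fun c => L.map (r c)).length,
        ((L.map fun c => L.map (r c)).getD i []).getD j false = true ↔
          (mgr (L.map fun c => L.map (r c))).Adj i j := by
  have hlen : ∀ i : Fin (L.map fun c => L.map (r c)).length, (i : ℕ) < L.length :=
    fun i => by simpa using i.2
  have hg : ∀ i : Fin (L.map fun c => L.map (r c)).length, ∃ v, enc v = L[(i : ℕ)]'(hlen i) :=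
    fun i => (hmem _).mp (List.getElem_mem _)
  choose g hg using hg
  have hinj : Function.Injective g := by
    intro i j h
    have h2 : L[(i : ℕ)]'(hlen i) = L[(j : ℕ)]'(hlen j) := by rw [← hg, ← hg, h]
    exact Fin.ext ((List.Nodup.getElem_inj_iff hL).mp h2)
  have hsurj : Function.Surjective g := by
    intro v
    obtain ⟨i, hi, h⟩ := List.getElem_of_mem ((hmem (enc v)).mpr ⟨v, rfl⟩)
    refine ⟨⟨i, by simpa using hi⟩, henc ?_⟩
    rw [hg]; exact h
  have hent : ∀ i j : Fin (L.map fun c => L.map (r c)).length,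
      ((L.map fun c => L.map (r c)).getD i []).getD j false = true ↔ X.Adj (g i) (g j) := by
    intro i j
    rw [← hr, hg, hg]
    simp [List.getD_eq_getElem?_getD, List.getElem?_eq_getElem (hlen i),
      List.getElem?_eq_getElem (hlen j)]
  have hadj : ∀ i j, (mgr (L.map fun c => L.map (r c))).Adj i j ↔ X.Adj (g i) (g j) := by
    intro i j
    rw [mgr, SimpleGraph.fromRel_adj, hent, hent]
    exact ⟨fun h => h.2.elim id fun h => h.symm, fun h => ⟨fun e => h.ne (by rw [e]), Or.inl h⟩⟩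
  refine ⟨⟨⟨Equiv.ofBijective g ⟨hinj, hsurj⟩, fun {i j} => (hadj i j).symm⟩⟩, ?_, fun i j => ?_⟩
  · intro row h
    obtain ⟨c, -, rfl⟩ := List.mem_map.mp h
    simp
  · rw [hent, hadj]

/-- Codes of vertices. -/
abbrev Code : Type := ℕ × ℕ × ℕ × Bool

/-- The list of all codes. -/
def codes (n M : ℕ) : List Code :=
  ((List.range (6 * M + 3)).product ((List.range n).product ((List.range n).product
    [false, true]))).filter fun x => (x.1 != 0 || x.2.2.1 == 0) && (Nat.ble 2 x.1 || !x.2.2.2)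

/-- Adjacency read off a matrix. -/
def madj (m : List (List Bool)) (u v : ℕ) : Bool :=
  u != v && ((m.getD u []).getD v false || (m.getD v []).getD u false)

/-- The order on codes. -/
def ltB (M : ℕ) (m : List (List Bool)) (x y : Code) : Bool :=
  Nat.ble 2 x.1 &&
    (bif y.1 == 0 then
      x.1 == 2 && (bif x.2.2.2 && madj m x.2.1 x.2.2.1 then x.2.2.1 else x.2.1) == y.2.1
    else bif y.1 == 1 then x.1 == 6 * M + 2 && (x.2.1 == y.2.1 && x.2.2.1 == y.2.2.1)
    else x.1 % 2 == 0 && ((x.2 == y.2 && (y.1 == x.1 + 1 || x.1 == y.1 + 1)) ||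
      (x.1 % 6 == 2 && x.1 == y.1 + 5)))

/-- The output matrix. -/
def outM (M : ℕ) (m : List (List Bool)) : List (List Bool) :=
  (codes m.length M).map fun x => (codes m.length M).map fun y => ltB M m x y || ltB M m y x

/-- The number of gadgets. -/
def numM (n : ℕ) : ℕ := (n * (n * 2) + 1) * (n * n) + 1

/-- The reduction. -/
def red (p : List (List Bool) × List (List Bool)) : List (List Bool) × List (List Bool) :=
  (outM (numM (p.1.length + p.2.length)) p.1, outM (numM (p.1.length + p.2.length)) p.2)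

theorem red_poly : N68a2faeb.IsPolyTime red :=
  PT.isPolyTime (by unfold red outM ltB madj codes numM; fun_prop)

/-- The code of a vertex. -/
def venc {n M : ℕ} : Vx (Fin n) (Fin n × Fin n) (Fin n × Fin n × Bool) M → Code
  | .a x => (0, x, 0, false)
  | .b y => (1, y.1, y.2, false)
  | .s k _ e => (k + 2, e.1, e.2.1, e.2.2)

lemma venc_inj {n M : ℕ} : Function.Injective (venc (n := n) (M := M)) := by
  intro u v h
  cases u <;> cases v <;> simp only [venc, Prod.mk.injEq] at h
  · exact congrArg Vx.a (Fin.ext h.2.1)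
  · omega
  · omega
  · omega
  · exact congrArg Vx.b (Prod.ext (Fin.ext h.2.1) (Fin.ext h.2.2.1))
  · omega
  · omega
  · omega
  · rw [Vx.s.injEq]
    exact ⟨by omega, Prod.ext (Fin.ext h.2.1) (Prod.ext (Fin.ext h.2.2.1) h.2.2.2)⟩

lemma codes_nodup (n M : ℕ) : (codes n M).Nodup :=
  (List.nodup_range.product (List.nodup_range.product (List.nodup_range.product
    (by simp)))).filter _

lemma mem_codes (n M : ℕ) (c : Code) :
    c ∈ codes n M ↔ ∃ v : Vx (Fin n) (Fin n × Fin n) (Fin n × Fin n × Bool) M, venc v = c := by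
  obtain ⟨t, u, v, c⟩ := c
  have key : (t, u, v, c) ∈ codes n M ↔
      t < 6 * M + 3 ∧ u < n ∧ v < n ∧ (t = 0 → v = 0) ∧ (t < 2 → c = false) := by
    simp only [codes, List.mem_filter, List.pair_mem_product, List.mem_range, Bool.and_eq_true,
      Bool.or_eq_true, bne_iff_ne, beq_iff_eq, Nat.ble_eq, Bool.not_eq_true']
    cases c <;> simp <;> omega
  rw [key]
  constructor
  · rintro ⟨h1, h2, h3, h4, h5⟩
    rcases t with _ | _ | t
    · exact ⟨.a ⟨u, h2⟩, by simp [venc, h4 rfl, h5 (by omega)]⟩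
    · exact ⟨.b (⟨u, h2⟩, ⟨v, h3⟩), by simp [venc, h5 (by omega)]⟩
    · exact ⟨.s t (by omega) (⟨u, h2⟩, ⟨v, h3⟩, c), rfl⟩
  · rintro ⟨w, hw⟩
    cases w with
    | a x =>
      simp only [venc, Prod.mk.injEq] at hw
      obtain ⟨rfl, rfl, rfl, rfl⟩ := hw
      have := x.2
      exact ⟨by omega, x.2, by omega, fun _ => rfl, fun _ => rfl⟩
    | b y =>
      simp only [venc, Prod.mk.injEq] at hw
      obtain ⟨rfl, rfl, rfl, rfl⟩ := hw
      exact ⟨by omega, y.1.2, y.2.2, by omega, fun _ => rfl⟩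
    | s k hk e =>
      simp only [venc, Prod.mk.injEq] at hw
      obtain ⟨rfl, rfl, rfl, rfl⟩ := hw
      exact ⟨by omega, e.1.2, e.2.1.2, by omega, by omega⟩

lemma madj_iff (m : List (List Bool)) (u v : Fin m.length) :
    madj m u v = true ↔ (mgr m).Adj u v := by
  rw [mgr, SimpleGraph.fromRel_adj]
  simp only [madj, Bool.and_eq_true, Bool.or_eq_true, bne_iff_ne, ne_eq, Fin.val_inj]

lemma ltB_iff (M : ℕ) (m : List (List Bool))
    (u v : Vx (Fin m.length) (Fin m.length × Fin m.length) (Fin m.length × Fin m.length × Bool) M) :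
    ltB M m (venc u) (venc v) = true ↔ Lt (gfa (mgr m)) (gfb (Fin m.length)) u v := by
  cases u with
  | a x => simp [ltB, venc, Lt]
  | b y => simp [ltB, venc, Lt]
  | s k hk e =>
    obtain ⟨e1, e2, c⟩ := e
    cases v with
    | a x =>
      by_cases h : c = true ∧ (mgr m).Adj e1 e2
      · have h' : (c && madj m e1 e2) = true := by simp [h.1, (madj_iff m e1 e2).mpr h.2]
        simp only [ltB, venc, Lt, gfa, h', if_pos h]
        simp [Fin.val_inj]
      · have h' : (c && madj m e1 e2) = false := by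
          rw [← Bool.not_eq_true, Bool.and_eq_true, madj_iff]; exact h
        simp only [ltB, venc, Lt, gfa, h', if_neg h]
        simp [Fin.val_inj]
    | b y =>
      obtain ⟨y1, y2⟩ := y
      simp [ltB, venc, Lt, gfb, Fin.val_inj]
    | s k' hk' e' =>
      obtain ⟨e1', e2', c'⟩ := e'
      simp only [ltB, venc, Lt, Prod.mk.injEq]
      have a1 : (k' + 2 == 0) = false := by simp
      have a2 : (k' + 2 == 1) = false := by simp
      simp only [a1, a2, cond_false, Bool.and_eq_true, Bool.or_eq_true, beq_iff_eq, Nat.ble_eq,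
        Prod.mk.injEq, Fin.val_inj]
      by_cases h : e1 = e1' ∧ e2 = e2' ∧ c = c'
      · simp only [h, true_and]; omega
      · simp only [h, false_and, false_or]; omega

lemma outM_spec (M : ℕ) (m : List (List Bool)) :
    Nonempty (mgr (outM M m) ≃g gr (gfa (mgr m)) (gfb (Fin m.length)) M) ∧
      (∀ row ∈ outM M m, row.length = (outM M m).length) ∧
      ∀ i j : Fin (outM M m).length,
        ((outM M m).getD i []).getD j false = true ↔ (mgr (outM M m)).Adj i j :=
  bridge _ _ (codes_nodup _ _) venc venc_inj (mem_codes _ _) _ fun u v => by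
    rw [Bool.or_eq_true, ltB_iff, ltB_iff]; rfl

lemma outM_dim (n : ℕ) (m : List (List Bool)) (h : m.length ≤ n) :
    ∃ (P : PartialOrder (Fin (outM (numM n) m).length))
      (L : Fin 3 → LinearOrder (Fin (outM (numM n) m).length)),
      (∀ u v, (mgr (outM (numM n) m)).Adj u v ↔ P.lt u v ∨ P.lt v u) ∧
        ∀ u v, P.le u v ↔ ∀ i, (L i).le u v := by
  obtain ⟨φ⟩ := (outM_spec (numM n) m).1
  refine dim_of_iso φ (dim_gr _ _ (Nat.le_add_left _ _) ?_)
  simp only [Fintype.card_prod, Fintype.card_fin, Fintype.card_bool, numM]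
  refine le_trans ?_ (Nat.le_succ _)
  gcongr

lemma red_iso (M : ℕ) (hM : 1 ≤ M) (m m' : List (List Bool)) :
    Nonempty (mgr m ≃g mgr m') ↔ Nonempty (mgr (outM M m) ≃g mgr (outM M m')) := by
  obtain ⟨φ⟩ := (outM_spec M m).1
  obtain ⟨ψ⟩ := (outM_spec M m').1
  rw [iso_iff _ _ hM]
  exact ⟨fun ⟨χ⟩ => ⟨(φ.trans χ).trans ψ.symm⟩, fun ⟨χ⟩ => ⟨(φ.symm.trans χ).trans ψ⟩⟩

end Pool.Agent.Lib.MP_89b4f4_co
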