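import Pool.Agent.Lib.MP_89b4f4_co.Dim

set_option autoImplicit false

namespace Pool.Agent.Lib.MP_89b4f4_co

/-- The vertex has at least three neighbours. -/
def Big {V : Type} (X : SimpleGraph V) (v : V) : Prop :=
  ∃ x y z, X.Adj v x ∧ X.Adj v y ∧ X.Adj v z ∧ x ≠ y ∧ x ≠ z ∧ y ≠ z

/-- No neighbour is big, but each neighbour has a big neighbour. -/
def IsA {V : Type} (X : SimpleGraph V) (v : V) : Prop :=
  ∀ w, X.Adj v w → ¬ Big X w ∧ ∃ w', X.Adj w w' ∧ Big X w'

lemma Big.map {V W : Type} {X : SimpleGraph V} {Y : SimpleGraph W} (φ : X ≃g Y) {v : V}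
    (h : Big X v) : Big Y (φ v) := by
  obtain ⟨x, y, z, h1, h2, h3, h4, h5, h6⟩ := h
  exact ⟨φ x, φ y, φ z, φ.map_adj_iff.mpr h1, φ.map_adj_iff.mpr h2, φ.map_adj_iff.mpr h3,
    φ.injective.ne h4, φ.injective.ne h5, φ.injective.ne h6⟩

lemma big_iff {V W : Type} {X : SimpleGraph V} {Y : SimpleGraph W} (φ : X ≃g Y) (v : V) :
    Big Y (φ v) ↔ Big X v :=
  ⟨fun h => by simpa using h.map φ.symm, fun h => h.map φ⟩

lemma IsA.map {V W : Type} {X : SimpleGraph V} {Y : SimpleGraph W} (φ : X ≃g Y) {v : V}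
    (h : IsA X v) : IsA Y (φ v) := by
  intro w hw
  obtain ⟨w, rfl⟩ := φ.surjective w
  obtain ⟨h1, w', h2, h3⟩ := h w (φ.map_adj_iff.mp hw)
  exact ⟨fun hb => h1 ((big_iff φ w).mp hb), φ w', φ.map_adj_iff.mpr h2, h3.map φ⟩

lemma not_big_of_two {V : Type} {X : SimpleGraph V} {v : V} (u u' : V)
    (h : ∀ w, X.Adj v w → w = u ∨ w = u') : ¬ Big X v := by
  rintro ⟨x, y, z, h1, h2, h3, h4, h5, h6⟩
  rcases h x h1 with a1 | a1 <;> rcases h y h2 with a2 | a2 <;> rcases h z h3 with a3 | a3 <;>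
    first
    | exact h4 (a1.trans a2.symm)
    | exact h5 (a1.trans a3.symm)
    | exact h6 (a2.trans a3.symm)

lemma exists_equiv_of_restrict {V V' A A' : Type} (φ : V ≃ V') (j : A → V) (j' : A' → V')
    (hj : Function.Injective j) (hj' : Function.Injective j')
    (h1 : ∀ x, ∃ x', φ (j x) = j' x') (h2 : ∀ x', ∃ x, φ.symm (j' x') = j x) :
    ∃ σ : A ≃ A', ∀ x, φ (j x) = j' (σ x) := by
  choose f hf using h1
  choose g hg using h2
  refine ⟨⟨f, g, fun x => hj ?_, fun x' => hj' ?_⟩, hf⟩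
  · rw [← hg, ← hf, Equiv.symm_apply_apply]
  · rw [← hf, ← hg, Equiv.apply_symm_apply]

section
variable {A B I : Type} {M : ℕ} {fa : I → A} {fb : I → B}

lemma adj_ss {k k' : ℕ} {hk : k ≤ 6 * M} {hk' : k' ≤ 6 * M} {e e' : I} :
    (gr fa fb M).Adj (.s k hk e) (.s k' hk' e') ↔
      (e = e' ∧ (k' = k + 1 ∨ k = k' + 1)) ∨ (k % 6 = 0 ∧ k = k' + 5) ∨
        (k' % 6 = 0 ∧ k' = k + 5) := by
  simp only [gr, Lt]
  by_cases h : e = e'
  · subst h; simp only [true_and]; omega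
  · have h' : ¬ e' = e := fun h2 => h h2.symm
    simp only [h, h', false_and, false_or]; omega

lemma adj_sa {k : ℕ} {hk : k ≤ 6 * M} {e : I} {x : A} :
    (gr fa fb M).Adj (.s k hk e) (.a x) ↔ k = 0 ∧ fa e = x := by
  simp [gr, Lt]

lemma adj_sb {k : ℕ} {hk : k ≤ 6 * M} {e : I} {y : B} :
    (gr fa fb M).Adj (.s k hk e) (.b y) ↔ k = 6 * M ∧ fb e = y := by
  simp [gr, Lt]

lemma adj_a {x : A} {w : Vx A B I M} (h : (gr fa fb M).Adj (.a x) w) :
    ∃ e, w = .s 0 (Nat.zero_le _) e ∧ fa e = x := by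
  cases w with
  | a x' => simp [gr, Lt] at h
  | b y => simp [gr, Lt] at h
  | s k hk e =>
    obtain ⟨rfl, h2⟩ := adj_sa.mp h.symm
    exact ⟨e, rfl, h2⟩

lemma big_s (hM : 1 ≤ M) {k : ℕ} {hk : k ≤ 6 * M} {e : I} :
    Big (gr fa fb M) (.s k hk e) ↔ (k % 6 = 1 ∨ (k % 6 = 0 ∧ 0 < k)) := by
  constructor
  · intro h
    by_contra hc
    by_cases h0 : k = 0
    · subst h0
      refine not_big_of_two (.a (fa e)) (.s 1 (by omega) e) (fun w hw => ?_) h
      cases w with
      | a x => rw [(adj_sa.mp hw).2]; exact Or.inl rfl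
      | b y => have := (adj_sb.mp hw).1; omega
      | s k' hk' e' =>
        rcases adj_ss.mp hw with ⟨rfl, h1⟩ | h1 | h1
        · have : k' = 1 := by omega
          subst this; exact Or.inr rfl
        · omega
        · omega
    · refine not_big_of_two (.s (k - 1) (by omega) e) (.s (k + 1) (by omega) e) (fun w hw => ?_) h
      cases w with
      | a x => have := (adj_sa.mp hw).1; omega
      | b y => have := (adj_sb.mp hw).1; omega
      | s k' hk' e' =>
        rcases adj_ss.mp hw with ⟨rfl, h1 | h1⟩ | h1 | h1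
        · subst h1; exact Or.inr rfl
        · have : k' = k - 1 := by omega
          subst this; exact Or.inl rfl
        · omega
        · omega
  · rintro (h | ⟨h, h0⟩)
    · refine ⟨.s (k - 1) (by omega) e, .s (k + 1) (by omega) e, .s (k + 5) (by omega) e,
        adj_ss.mpr (Or.inl ⟨rfl, by omega⟩), adj_ss.mpr (Or.inl ⟨rfl, by omega⟩),
        adj_ss.mpr (by omega), ?_, ?_, ?_⟩ <;> simp only [ne_eq, Vx.s.injEq] <;> omega
    · by_cases h6 : k = 6 * M
      · refine ⟨.s (k - 1) (by omega) e, .s (k - 5) (by omega) e, .b (fb e),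
          adj_ss.mpr (Or.inl ⟨rfl, by omega⟩), adj_ss.mpr (by omega), adj_sb.mpr ⟨h6, rfl⟩,
          ?_, by simp, by simp⟩
        simp only [ne_eq, Vx.s.injEq]; omega
      · refine ⟨.s (k - 1) (by omega) e, .s (k + 1) (by omega) e, .s (k - 5) (by omega) e,
          adj_ss.mpr (Or.inl ⟨rfl, by omega⟩), adj_ss.mpr (Or.inl ⟨rfl, by omega⟩),
          adj_ss.mpr (by omega), ?_, ?_, ?_⟩ <;> simp only [ne_eq, Vx.s.injEq] <;> omega

lemma isA_a (hM : 1 ≤ M) (x : A) : IsA (gr fa fb M) (.a x) := by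
  intro w hw
  obtain ⟨e, rfl, -⟩ := adj_a hw
  refine ⟨by rw [big_s hM]; omega, .s 1 (by omega) e, adj_ss.mpr (Or.inl ⟨rfl, by omega⟩), ?_⟩
  rw [big_s hM]; omega

lemma not_isA_b (hM : 1 ≤ M) (hb : Function.Surjective fb) (y : B) :
    ¬ IsA (gr fa fb M) (.b y) := by
  obtain ⟨e, rfl⟩ := hb y
  intro h
  refine (h (.s (6 * M) le_rfl e) (adj_sb.mpr ⟨rfl, rfl⟩).symm).1 ?_
  rw [big_s hM]; omega

lemma not_isA_s (hM : 1 ≤ M) (k : ℕ) (hk : k ≤ 6 * M) (e : I) :
    ¬ IsA (gr fa fb M) (.s k hk e) := by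
  intro h
  have aux : ∀ (k' : ℕ) (hk' : k' ≤ 6 * M), (gr fa fb M).Adj (.s k hk e) (.s k' hk' e) →
      (k' % 6 = 1 ∨ (k' % 6 = 0 ∧ 0 < k')) → False :=
    fun k' hk' h1 h2 => (h _ h1).1 ((big_s hM).mpr h2)
  have aux2 : ∀ (k' : ℕ) (hk' : k' ≤ 6 * M), (gr fa fb M).Adj (.s k hk e) (.s k' hk' e) →
      (k' % 6 = 3 ∨ k' % 6 = 4) → False := by
    intro k' hk' h1 h2
    obtain ⟨w, h3, h4⟩ := (h _ h1).2
    cases w with
    | a x => have := (adj_sa.mp h3).1; omega
    | b y => have := (adj_sb.mp h3).1; omega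
    | s k'' hk'' e'' =>
      rw [big_s hM] at h4
      rcases adj_ss.mp h3 with ⟨-, h5⟩ | h5 | h5 <;> omega
  have hr : k = 0 ∨ (k % 6 = 0 ∧ 0 < k) ∨ k % 6 = 1 ∨ k % 6 = 2 ∨ k % 6 = 3 ∨ k % 6 = 4 ∨
      k % 6 = 5 := by omega
  rcases hr with h0 | h0 | h0 | h0 | h0 | h0 | h0
  · exact aux 1 (by omega) (adj_ss.mpr (Or.inl ⟨rfl, by omega⟩)) (by omega)
  · exact aux (k - 5) (by omega) (adj_ss.mpr (by omega)) (by omega)
  · exact aux (k + 5) (by omega) (adj_ss.mpr (by omega)) (by omega)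
  · exact aux (k - 1) (by omega) (adj_ss.mpr (Or.inl ⟨rfl, by omega⟩)) (by omega)
  · exact aux2 (k + 1) (by omega) (adj_ss.mpr (Or.inl ⟨rfl, by omega⟩)) (by omega)
  · exact aux2 (k - 1) (by omega) (adj_ss.mpr (Or.inl ⟨rfl, by omega⟩)) (by omega)
  · exact aux (k + 1) (by omega) (adj_ss.mpr (Or.inl ⟨rfl, by omega⟩)) (by omega)

end

section
variable {A B I A' B' I' : Type} {M : ℕ} {fa : I → A} {fb : I → B} {fa' : I' → A'} {fb' : I' → B'}

lemma map_a (hM : 1 ≤ M) (hb' : Function.Surjective fb') (φ : gr fa fb M ≃g gr fa' fb' M)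
    (x : A) : ∃ x', φ (.a x) = .a x' := by
  have h := (isA_a (fa := fa) (fb := fb) hM x).map φ
  cases hφ : φ (.a x) with
  | a x' => exact ⟨x', rfl⟩
  | b y => rw [hφ] at h; exact absurd h (not_isA_b hM hb' y)
  | s k hk e => rw [hφ] at h; exact absurd h (not_isA_s hM k hk e)

lemma map_zero (hM : 1 ≤ M) (hb' : Function.Surjective fb') (φ : gr fa fb M ≃g gr fa' fb' M)
    (e : I) : ∃ e', φ (.s 0 (Nat.zero_le _) e) = .s 0 (Nat.zero_le _) e' := by
  obtain ⟨x', hx⟩ := map_a hM hb' φ (fa e)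
  have h : (gr fa fb M).Adj (.a (fa e)) (.s 0 (Nat.zero_le _) e) := (adj_sa.mpr ⟨rfl, rfl⟩).symm
  have h2 := φ.map_adj_iff.mpr h
  rw [hx] at h2
  obtain ⟨e', h3, -⟩ := adj_a h2
  exact ⟨e', h3⟩

/-- Every isomorphism between two of these graphs comes from an isomorphism of the
incidence structures. -/
theorem rigid (hM : 1 ≤ M) (hb : Function.Surjective fb) (hb' : Function.Surjective fb')
    (φ : gr fa fb M ≃g gr fa' fb' M) :
    ∃ (σ : A ≃ A') (τ : B ≃ B') (ρ : I ≃ I'), (∀ x, φ (.a x) = .a (σ x)) ∧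
      (∀ y, φ (.b y) = .b (τ y)) ∧ (∀ k hk e, φ (.s k hk e) = .s k hk (ρ e)) ∧
      (∀ e, fa' (ρ e) = σ (fa e)) ∧ ∀ e, fb' (ρ e) = τ (fb e) := by
  obtain ⟨σ, hσ⟩ := exists_equiv_of_restrict φ.toEquiv Vx.a Vx.a
    (fun _ _ h => by simpa using h) (fun _ _ h => by simpa using h)
    (map_a hM hb' φ) (map_a hM hb φ.symm)
  obtain ⟨ρ, hρ⟩ := exists_equiv_of_restrict φ.toEquiv (Vx.s 0 (Nat.zero_le _))
    (Vx.s 0 (Nat.zero_le _))
    (fun _ _ h => by simpa using h) (fun _ _ h => by simpa using h)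
    (map_zero hM hb' φ) (map_zero hM hb φ.symm)
  change ∀ x, φ _ = _ at hσ hρ
  have hs : ∀ k hk e, φ (.s k hk e) = .s k hk (ρ e) := by
    intro k
    induction k using Nat.strong_induction_on with
    | _ k ih =>
      intro hk e
      rcases k with _ | k
      · exact hρ e
      · have h1 : (gr fa fb M).Adj (.s k (by omega) e) (.s (k + 1) hk e) :=
          adj_ss.mpr (Or.inl ⟨rfl, Or.inl rfl⟩)
        have h2 := φ.map_adj_iff.mpr h1
        rw [ih k (by omega)] at h2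
        have hbig := big_iff φ (.s (k + 1) hk e)
        cases hφ : φ (.s (k + 1) hk e) with
        | a x =>
          rw [← σ.apply_symm_apply x, ← hσ] at hφ
          simpa using φ.injective hφ
        | b y =>
          rw [hφ] at h2
          have := (adj_sb.mp h2).1
          omega
        | s k' hk' e' =>
          rw [hφ] at h2 hbig
          rw [big_s hM, big_s hM] at hbig
          by_cases hlt : k' < k + 1
          · rw [← ρ.apply_symm_apply e', ← ih k' hlt] at hφ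
            have := φ.injective hφ
            simp only [Vx.s.injEq] at this
            omega
          · rcases adj_ss.mp h2 with ⟨rfl, h3⟩ | h3 | h3
            · have : k' = k + 1 := by omega
              subst this; rfl
            · omega
            · omega
  have hb1 : ∀ y, ∃ y', φ (.b y) = .b y' := by
    intro y
    cases hφ : φ (.b y) with
    | a x =>
      rw [← σ.apply_symm_apply x, ← hσ] at hφ
      simpa using φ.injective hφ
    | b y' => exact ⟨y', rfl⟩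
    | s k hk e =>
      rw [← ρ.apply_symm_apply e, ← hs] at hφ
      simpa using φ.injective hφ
  have hb2 : ∀ y', ∃ y, φ.symm (.b y') = .b y := by
    intro y'
    cases hφ : φ.symm (.b y') with
    | a x =>
      have := congrArg φ hφ
      rw [φ.apply_symm_apply, hσ] at this
      simp at this
    | b y => exact ⟨y, rfl⟩
    | s k hk e =>
      have := congrArg φ hφ
      rw [φ.apply_symm_apply, hs] at this
      simp at this
  obtain ⟨τ, hτ⟩ := exists_equiv_of_restrict φ.toEquiv Vx.b Vx.b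
    (fun _ _ h => by simpa using h) (fun _ _ h => by simpa using h) hb1 hb2
  change ∀ x, φ _ = _ at hτ
  refine ⟨σ, τ, ρ, hσ, hτ, hs, fun e => ?_, fun e => ?_⟩
  · have h1 : (gr fa fb M).Adj (.s 0 (Nat.zero_le _) e) (.a (fa e)) := adj_sa.mpr ⟨rfl, rfl⟩
    have h2 := φ.map_adj_iff.mpr h1
    rw [hs, hσ] at h2
    exact (adj_sa.mp h2).2
  · have h1 : (gr fa fb M).Adj (.s (6 * M) le_rfl e) (.b (fb e)) := adj_sb.mpr ⟨rfl, rfl⟩
    have h2 := φ.map_adj_iff.mpr h1
    rw [hs, hτ] at h2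
    exact (adj_sb.mp h2).2

/-- The map on vertices induced by maps of points, blocks and flags. -/
def vmap (M : ℕ) (σ : A → A') (τ : B → B') (ρ : I → I') : Vx A B I M → Vx A' B' I' M
  | .a x => .a (σ x)
  | .b y => .b (τ y)
  | .s k hk e => .s k hk (ρ e)

/-- The isomorphism induced by an isomorphism of incidence structures. -/
def mapIso (M : ℕ) (σ : A ≃ A') (τ : B ≃ B') (ρ : I ≃ I') (ha : ∀ e, fa' (ρ e) = σ (fa e))
    (hb : ∀ e, fb' (ρ e) = τ (fb e)) : gr fa fb M ≃g gr fa' fb' M where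
  toFun := vmap M σ τ ρ
  invFun := vmap M σ.symm τ.symm ρ.symm
  left_inv v := by cases v <;> simp [vmap]
  right_inv v := by cases v <;> simp [vmap]
  map_rel_iff' := by
    intro u v
    cases u <;> cases v <;> simp [vmap, gr, Lt, ha, hb]

end

end Pool.Agent.Lib.MP_89b4f4_co
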